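import Pool.Agent.Run7.h291.WN.A12
import Pool.Agent.Run7.h291.WC.B7
import Pool.Agent.Run7.h291.WC.Supw
import Pool.Agent.Run7.h651.WN.LAW
import Pool.Agent.Run7.h42.WN_MNB
import Pool.Agent.Run7.h772.WN_ZML

set_option autoImplicit false

/-!
# The moments of zeta in windows near the critical line, all real orders `k > 1`

This is the common core (copied, with a few changes of form) of the results `MP_973905_nt.CriticalWindows` and
`MP_112ba8_nt.MomentsInWindows` of helper291 and others (helper42, helper311, helper651, helper772), in the form in which it is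
used for the sixth and the eighth moment.
-/

namespace Run7.h701.WW

open MeasureTheory Filter Topology

/-- the arithmetic factor of the moment conjecture -/
noncomputable def ak (k : ℝ) : ℝ :=
  ∏' p : Nat.Primes, ((1 - 1 / (p : ℝ)) ^ (k ^ 2) *
    ∑' m : ℕ, (∏ i ∈ Finset.range m, (k + i) / ((i : ℝ) + 1)) ^ 2 * (1 / (p : ℝ)) ^ m)

/-- the modulus of zeta at distance `δ` from the critical line and height `u` -/
noncomputable def z (δ u : ℝ) : ℝ := ‖riemannZeta (1 / 2 + δ + u * Complex.I)‖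

/-- the mean of `|ζ|^(2k)` over the window `[t, t + H]` -/
noncomputable def M (k δ t H : ℝ) : ℝ := (1 / H) * ∫ u in Set.Icc t (t + H), z δ u ^ (2 * k)

/-- the mean of `|ζ|^(2k)` over the window `[t, t + H]` without the points where `|ζ| > c` -/
noncomputable def Mc (c k δ t H : ℝ) : ℝ :=
  (1 / H) * ∫ u in {u : ℝ | u ∈ Set.Icc t (t + H) ∧ z δ u ≤ c}, z δ u ^ (2 * k)

/-- the prediction -/
noncomputable def P (k δ : ℝ) : ℝ := ak k * (2 * δ) ^ (-(k ^ 2))

/-- the distribution function of the standard normal law -/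
noncomputable def Phi (x : ℝ) : ℝ := (ProbabilityTheory.gaussianReal 0 1).real (Set.Iic x)

/-- the position of the length `H` in the transition -/
noncomputable def pos (k δ H : ℝ) : ℝ := Real.log (H * δ ^ (k ^ 2 - 1)) / (k * Real.sqrt (2 * Real.log (1 / δ)))

open Run7.h291.WN Pool.Agent.N748.MG

lemma ak_pos (k : ℝ) : 0 < ak k := akp k

lemma conv {k δ : ℝ} (hδ : 0 < δ) (I : ℝ) : I / P k δ = (2 * δ) ^ (k ^ 2) / akR k * I := by
  have h1 : P k δ = akR k * (2 * δ) ^ (-(k ^ 2)) := rfl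
  have h2 := akp k
  have h3 : (0:ℝ) < (2 * δ) ^ (k ^ 2) := Real.rpow_pos_of_pos (by linarith) _
  rw [h1, Real.rpow_neg (by linarith)]
  field_simp

lemma convM {k δ t H : ℝ} (hδ : 0 < δ) (hH : 0 < H) :
    M k δ t H / P k δ = (1 / H) * (∫ u in t..(t + H), Zk k δ u) := by
  rw [conv hδ, intervalIntegral.integral_of_le (by linarith), ← integral_Icc_eq_integral_Ioc]
  unfold M Zk
  rw [integral_const_mul]
  unfold z mz pw
  ring

lemma convMc {k V δ t H : ℝ} (hδ : 0 < δ) (hδ1 : δ ≤ 1 / 16) (hH : 0 < H) :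
    Mc (δ ^ (-V)) k δ t H / P k δ = (1 / H) * (∫ u in t..(t + H), TZ k V δ u) := by
  rw [conv hδ, intervalIntegral.integral_of_le (by linarith), ← integral_Icc_eq_integral_Ioc]
  have hmeas : MeasurableSet {u : ℝ | mz δ u ≤ δ ^ (-V)} :=
    measurableSet_le (TMA.cont hδ1).measurable measurable_const
  have e1 : ∀ u : ℝ, TZ k V δ u = {u : ℝ | mz δ u ≤ δ ^ (-V)}.indicator (fun u => Zk k δ u) u := by
    intro u
    unfold TZ
    rw [Set.indicator_apply]
    rfl
  simp_rw [e1]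
  rw [setIntegral_indicator hmeas]
  unfold Mc Zk
  rw [integral_const_mul]
  have e2 : {u : ℝ | u ∈ Set.Icc t (t + H) ∧ z δ u ≤ δ ^ (-V)} =
      Set.Icc t (t + H) ∩ {u : ℝ | mz δ u ≤ δ ^ (-V)} := rfl
  rw [e2]
  unfold z mz pw
  ring

lemma pos_eq {k δ H : ℝ} : Run7.h291.WC.pos k δ H = pos k δ H := by
  unfold Run7.h291.WC.pos pos Run7.h291.WC.sg
  have h4 : 2 * Real.log (1 / δ) = 2 ^ 2 * (Real.log (1 / δ) / 2) := by ring
  rw [h4, Real.sqrt_mul (by norm_num), Real.sqrt_sq (by norm_num)]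
  congr 1
  ring

/-- the law in the critical windows, all lengths outside the transition at once, and all lengths up to `T` at once if the
values larger than `δ^(-V)` are left out -/
theorem gen (k D θ V : ℝ) (hk : 1 < k) (hθ : k ^ 2 - 1 < θ) (hV : k < V) (ε : ℝ) (hε : 0 < ε) :
    ∃ A lam δ0 : ℝ, 0 < lam ∧ 0 < δ0 ∧ δ0 ≤ 1 / 16 ∧ ∀ᶠ T : ℝ in atTop, ∀ δ : ℝ, 0 < δ → δ ≤ δ0 →
      lam * Real.log (1 / δ) ^ 2 ≤ δ * Real.log T →
      (∀ H : ℝ, 0 < H → H ≤ δ ^ (-D) →
        volume {t : ℝ | t ∈ Set.Icc 0 T ∧ ¬ |M k δ t H / P k δ - Phi (pos k δ H)| < ε} ≤ ENNReal.ofReal (ε * T)) ∧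
      volume {t : ℝ | t ∈ Set.Icc 0 T ∧ ¬ ∀ H : ℝ, 0 < H → H ≤ δ ^ (-D) →
        (A ≤ pos k δ H → |M k δ t H / P k δ - 1| < ε) ∧ (pos k δ H ≤ -A → M k δ t H / P k δ < ε)} ≤
          ENNReal.ofReal (ε * T) ∧
      volume {t : ℝ | t ∈ Set.Icc 0 T ∧ ¬ ∀ H : ℝ, δ ^ (-θ) ≤ H → t + H ≤ T →
        |Mc (δ ^ (-V)) k δ t H / P k δ - 1| < ε} ≤ ENNReal.ofReal (ε * T) := by
  have hM := Run7.h42.WN.mnb Run7.h772.zml
  have hL := Run7.h651.WN.law
  have hS := Run7.h291.WC.supw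
  have hk0 : 0 < k := by linarith
  have hθ' : max 1 (k ^ 2) - 1 < θ := by
    have h1 : 1 ≤ k ^ 2 := by nlinarith
    rw [max_eq_right h1]
    exact hθ
  have h1 := Run7.h291.WC.crit_a hM hL hS k (max D 0) hk (le_max_right _ _) ε hε
  obtain ⟨A, h2⟩ := Run7.h291.WC.crit_b hM hL hS k (max D 0) hk (le_max_right _ _) ε hε
  have h3 := coreB hM k θ V hk0 hθ' hV ε hε
  refine ⟨A, (h1.and (h2.and h3)).mono ?_⟩
  rintro T δ hT hδ hδ1 ⟨h1, h2, h3⟩
  have hDD : ∀ H : ℝ, H ≤ δ ^ (-D) → H ≤ δ ^ (-(max D 0)) := fun H hH =>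
    hH.trans (Real.rpow_le_rpow_of_exponent_ge hδ (by linarith) (neg_le_neg (le_max_left _ _)))
  refine ⟨?_, ?_, ?_⟩
  · intro H hH0 hH
    refine le_trans (measure_mono ?_) (h1 H hH0 (hDD H hH))
    rintro t ⟨⟨t0, t1⟩, ht⟩
    rw [not_lt, convM hδ hH0] at ht
    refine ⟨t0, t1, ?_⟩
    rw [pos_eq]
    exact ht
  · refine le_trans (measure_mono ?_) h2
    rintro t ⟨⟨t0, t1⟩, ht⟩
    push Not at ht
    obtain ⟨H, hH0, hH, ht⟩ := ht
    refine ⟨t0, t1, H, hH0, hDD H hH, ?_⟩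
    rw [pos_eq]
    rw [convM hδ hH0] at ht
    by_cases hc : A ≤ pos k δ H ∧ ε ≤ |(1 / H) * (∫ u in t..(t + H), Zk k δ u) - 1|
    · exact Or.inl hc
    · right
      refine ht fun hA => ?_
      by_contra hcon
      rw [not_lt] at hcon
      exact hc ⟨hA, hcon⟩
  · refine le_trans (measure_mono ?_) h3
    rintro t ⟨⟨t0, t1⟩, ht⟩
    push Not at ht
    obtain ⟨H, a1, a2, a3⟩ := ht
    have hH : 0 < H := lt_of_lt_of_le (Real.rpow_pos_of_pos hδ _) a1
    refine ⟨t0, H, a1, a2, ?_⟩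
    rw [convMc hδ hδ1 hH] at a3
    exact a3

open ProbabilityTheory in
lemma Phi_zero : Phi 0 = 1 / 2 := by
  have := nullSingletonClass_gaussianReal (μ := 0) (v := 1) one_ne_zero
  have h1 : (gaussianReal 0 1).real (Set.Iic 0) = (gaussianReal 0 1).real (Set.Ici 0) := by
    have h2 : (gaussianReal 0 1).map (fun x : ℝ => -x) = gaussianReal 0 1 := by
      rw [gaussianReal_map_neg, neg_zero]
    conv_lhs => rw [← h2]
    rw [measureReal_def, Measure.map_apply (by fun_prop) measurableSet_Iic, measureReal_def]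
    congr 2
    ext x
    simp
  have h3 : (gaussianReal 0 1).real (Set.Ici 0) = (gaussianReal 0 1).real (Set.Ioi 0) := by
    rw [measureReal_def, measureReal_def, Ioi_ae_eq_Ici.measure_eq]
  have h4 : (gaussianReal 0 1).real (Set.Iic 0)ᶜ = 1 - (gaussianReal 0 1).real (Set.Iic 0) := by
    rw [measureReal_compl measurableSet_Iic, probReal_univ]
  rw [Set.compl_Iic, ← h3, ← h1] at h4
  unfold Phi
  linarith

lemma ak3 (m : ℕ) : ∏ i ∈ Finset.range m, ((3:ℝ) + i) / ((i : ℝ) + 1) = ((m + 2).choose 2 : ℕ) := by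
  induction m with
  | zero => simp
  | succ n ih =>
    rw [Finset.prod_range_succ, ih, Nat.cast_choose_two, Nat.cast_choose_two]
    push_cast
    field_simp
    ring

lemma ak4 (m : ℕ) : ∏ i ∈ Finset.range m, ((4:ℝ) + i) / ((i : ℝ) + 1) = ((m + 3).choose 3 : ℕ) := by
  induction m with
  | zero => simp
  | succ n ih =>
    rw [Finset.prod_range_succ, ih]
    have h2 : (n + 1 + 3).choose 3 * (n + 1) = (n + 4) * (n + 3).choose 3 := by
      have h3 := Nat.choose_mul_succ_eq (n + 3) 3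
      have e : n + 3 + 1 - 3 = n + 1 := by omega
      rw [e] at h3
      have e2 : n + 1 + 3 = n + 3 + 1 := by ring
      rw [e2, ← h3]
      ring
    have h4 : (((n + 1 + 3).choose 3 : ℕ) : ℝ) * ((n:ℝ) + 1) = ((n:ℝ) + 4) * ((n + 3).choose 3 : ℕ) := by
      exact_mod_cast h2
    field_simp
    linarith

end Run7.h701.WW
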